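import Pool.Agent.Helper41.Germ.Fatou2

/-!
# Conjugacy of `x - x^2` to a flow
-/

open Filter Topology Set

namespace Pool.Agent.Helper41.Germ

open Pool.Agent.Germ

theorem conj_to_flow (τ : ℝ) (hτ : τ = 1 ∨ τ = -1) (β : ℝ → ℝ)
    (hβs : ∀ᶠ u in atTop, ContDiffAt ℝ 2 β u)
    (hβ0 : Tendsto (fun u => u * β u) atTop (𝓝 1))
    (hβ1 : Tendsto (fun u => u ^ 2 * deriv β u) atTop (𝓝 (-1)))
    (T G : ℝ → ℝ) (hT : ∀ᶠ u in atTop, HasDerivAt T (1 / (τ + β u)) u)
    (hTL : ∃ L, Tendsto (fun u => T u - (τ * u - Real.log u)) atTop (𝓝 L))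
    (hG : ∀ᶠ u in atTop, T (G u) = T u + 1) (hGt : Tendsto G atTop atTop) :
    ∃ φ : ℝ → ℝ, Adm 1 0 φ ∧ ∀ᶠ u in atTop, φ (u + τ + 1 / (u - τ)) = G (φ u) := by
  classical
  have hττ : τ * τ = 1 := by rcases hτ with h | h <;> rw [h] <;> norm_num
  have hτa : |τ| = 1 := by rcases hτ with h | h <;> rw [h] <;> simp
  have hτle : τ ≤ 1 ∧ -1 ≤ τ := by
    rcases hτ with h | h <;> rw [h] <;> norm_num
  obtain ⟨Φ, hΦs, hΦd, hΦ0, hΦ1, hΦ2, hΦg⟩ := exists_fatou τ hτ
  obtain ⟨L, hTL⟩ := hTL
  -- `β` tends to zero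
  have hβ : Tendsto β atTop (𝓝 0) := by
    have h1 : Tendsto (fun u => (u * β u) / u) atTop (𝓝 0) := hβ0.div_atTop tendsto_id
    refine h1.congr' ?_
    filter_upwards [eventually_ne_atTop 0] with u hu
    field_simp
  -- the good range
  have hβh : ∀ᶠ u in atTop, |β u| < 1 / 2 := by
    have := hβ.abs
    rw [abs_zero] at this
    exact this.eventually (gt_mem_nhds (by norm_num))
  obtain ⟨R0, hR0⟩ := eventually_atTop.mp ((hT.and hβh).and (hβs.and (eventually_ge_atTop (1 : ℝ))))
  have hTd : ∀ u, R0 ≤ u → HasDerivAt T (1 / (τ + β u)) u := fun u hu => (hR0 u hu).1.1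
  have hβa : ∀ u, R0 ≤ u → |β u| < 1 / 2 := fun u hu => (hR0 u hu).1.2
  have hβc : ∀ u, R0 ≤ u → ContDiffAt ℝ 2 β u := fun u hu => (hR0 u hu).2.1
  have hpos : ∀ u, R0 ≤ u → 0 < τ * (1 / (τ + β u)) ∧ τ + β u ≠ 0 := by
    intro u hu
    have h1 := abs_lt.mp (hβa u hu)
    rcases hτ with h | h
    · rw [h]
      have h2 : 0 < 1 + β u := by linarith
      exact ⟨by positivity, h2.ne'⟩
    · rw [h]
      have h2 : -1 + β u < 0 := by linarith
      refine ⟨?_, h2.ne⟩
      have := one_div_neg.mpr h2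
      linarith
  have hmono : StrictMonoOn (fun u => τ * T u) (Ici R0) := by
    apply strictMonoOn_of_deriv_pos (convex_Ici R0)
    · intro u hu
      exact (((hTd u hu).const_mul τ).continuousAt).continuousWithinAt
    · intro u hu
      rw [interior_Ici] at hu
      rw [((hTd u (le_of_lt hu)).const_mul τ).deriv]
      exact (hpos u (le_of_lt hu)).1
  have hinj : ∀ a b, R0 ≤ a → R0 ≤ b → T a = T b → a = b := by
    intro a b ha hb hab
    exact hmono.injOn ha hb (by simp only [hab])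
  -- existence
  have hex : ∀ᶠ u in atTop, ∃ v ∈ Icc (u - 1) (u + 1), T v = Φ u + L := by
    have key : ∀ s : ℝ, Tendsto (fun u => τ * (T (u + s) - (Φ u + L))) atTop (𝓝 s) := by
      intro s
      have h1 := hTL.comp (tendsto_atTop_add_const_right atTop s tendsto_id)
      have h2 := Real.tendsto_log_comp_add_sub_log s
      have h3 := (((h1.sub hΦ0).sub h2).sub_const L).const_mul τ
      have h4 := h3.add_const s
      rw [sub_zero, sub_zero, sub_self, mul_zero, zero_add] at h4
      refine h4.congr (fun u => ?_)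
      simp only [Function.comp, id]
      linear_combination (-s) * hττ
    have h1 := (key 1).eventually (lt_mem_nhds (show (0 : ℝ) < 1 by norm_num))
    have h2 := (key (-1)).eventually (gt_mem_nhds (show (-1 : ℝ) < 0 by norm_num))
    filter_upwards [h1, h2, eventually_ge_atTop (R0 + 1)] with u h1 h2 hu
    have hc : ContinuousOn (fun v => τ * (T v - (Φ u + L))) (Icc (u - 1) (u + 1)) := by
      intro v hv
      have := (hTd v (by linarith [hv.1])).continuousAt
      exact (continuousAt_const.mul (this.sub continuousAt_const)).continuousWithinAt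
    have h3 := intermediate_value_Icc (by linarith : u - 1 ≤ u + 1) hc
    have h4 : (0 : ℝ) ∈ Icc (τ * (T (u - 1) - (Φ u + L))) (τ * (T (u + 1) - (Φ u + L))) := by
      refine ⟨?_, h1.le⟩
      have : u + -1 = u - 1 := by ring
      rw [this] at h2
      exact h2.le
    obtain ⟨v, hv, hv2⟩ := h3 h4
    refine ⟨v, hv, ?_⟩
    have hτ0 : τ ≠ 0 := by
      intro h
      rw [h] at hττ
      norm_num at hττ
    have := (mul_eq_zero.mp hv2).resolve_left hτ0
    linarith
  set φ : ℝ → ℝ := fun u => if h : ∃ v ∈ Icc (u - 1) (u + 1), T v = Φ u + L then h.choose else 0 with hφ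
  have hφs : ∀ᶠ u in atTop, φ u ∈ Icc (u - 1) (u + 1) ∧ T (φ u) = Φ u + L := by
    filter_upwards [hex] with u hu
    have : φ u = hu.choose := by
      rw [hφ]
      simp only
      rw [dif_pos hu]
    rw [this]
    exact hu.choose_spec
  obtain ⟨R1, hR1⟩ := eventually_atTop.mp ((hφs.and (hΦs.and hΦd)).and (eventually_ge_atTop (R0 + 2)))
  have f1 : ∀ u, R1 ≤ u → u - 1 ≤ φ u ∧ φ u ≤ u + 1 := fun u hu => (hR1 u hu).1.1.1
  have f2 : ∀ u, R1 ≤ u → T (φ u) = Φ u + L := fun u hu => (hR1 u hu).1.1.2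
  have f3 : ∀ u, R1 ≤ u → ContDiffAt ℝ 2 Φ u := fun u hu => (hR1 u hu).1.2.1
  have f4 : ∀ u, R1 ≤ u → DifferentiableAt ℝ (deriv Φ) u := fun u hu => (hR1 u hu).1.2.2
  have f5 : ∀ u, R1 ≤ u → R0 + 2 ≤ u := fun u hu => (hR1 u hu).2
  have f6 : ∀ u, R1 ≤ u → R0 < φ u := fun u hu => by linarith [(f1 u hu).1, f5 u hu]
  -- smoothness of `T`
  have hTs : ContDiffOn ℝ 2 T (Ioi R0) := by
    have : (2 : WithTop ℕ∞) = 1 + 1 := by norm_num
    rw [this, contDiffOn_succ_iff_deriv_of_isOpen isOpen_Ioi]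
    refine ⟨fun u hu => (hTd u (le_of_lt hu)).differentiableAt.differentiableWithinAt, by simp, ?_⟩
    have h1 : ContDiffOn ℝ 1 (fun u => 1 / (τ + β u)) (Ioi R0) := by
      intro u hu
      have h2 : ContDiffAt ℝ 1 β u := (hβc u (le_of_lt hu)).of_le (by norm_num)
      exact (contDiffAt_const.div (contDiffAt_const.add h2) (hpos u (le_of_lt hu)).2).contDiffWithinAt
    exact h1.congr (fun u hu => (hTd u (le_of_lt hu)).deriv)
  -- smoothness of `φ`
  have hsm : ∀ u, R1 < u → ContDiffAt ℝ 2 φ u := by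
    intro u0 hu0
    have hv0 := f6 u0 hu0.le
    have hTc : ContDiffAt ℝ 2 T (φ u0) := hTs.contDiffAt (Ioi_mem_nhds hv0)
    have hne : (1 / (τ + β (φ u0))) ≠ 0 := one_div_ne_zero (hpos _ hv0.le).2
    have hTf : HasFDerivAt T ((ContinuousLinearEquiv.unitsEquivAut ℝ (Units.mk0 _ hne) : ℝ ≃L[ℝ] ℝ) : ℝ →L[ℝ] ℝ)
        (φ u0) := by
      have h1 := (hTd _ hv0.le).hasFDerivAt
      refine h1.congr_fderiv ?_
      ext
      simp
    have hS : ContDiffAt ℝ 2 (hTc.localInverse hTf (by norm_num)) (T (φ u0)) :=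
      hTc.to_localInverse hTf (by norm_num)
    have hS0 := hTc.localInverse_apply_image hTf (by norm_num)
    have hSr : ∀ᶠ y in 𝓝 (T (φ u0)), T (hTc.localInverse hTf (by norm_num) y) = y :=
      (hTc.hasStrictFDerivAt' hTf (by norm_num)).eventually_right_inverse
    set S := hTc.localInverse hTf (by norm_num) with hSdef
    have hΦc : ContDiffAt ℝ 2 (fun u => Φ u + L) u0 := (f3 u0 hu0.le).add contDiffAt_const
    have hS' : ContDiffAt ℝ 2 S (Φ u0 + L) := by
      rw [← f2 u0 hu0.le]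
      exact hS
    have hψ : ContDiffAt ℝ 2 (fun u => S (Φ u + L)) u0 := hS'.comp u0 hΦc
    apply hψ.congr_of_eventuallyEq
    have h1 : ∀ᶠ u in 𝓝 u0, T (S (Φ u + L)) = Φ u + L := by
      rw [f2 u0 hu0.le] at hSr
      exact hΦc.continuousAt.eventually hSr
    have h2 : ∀ᶠ u in 𝓝 u0, R0 < S (Φ u + L) := by
      apply hψ.continuousAt.eventually
      apply lt_mem_nhds
      show R0 < S (Φ u0 + L)
      rw [← f2 u0 hu0.le, hS0]
      exact hv0
    filter_upwards [h1, h2, lt_mem_nhds hu0] with u h1 h2 h3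
    apply hinj _ _ (f6 u h3.le).le h2.le
    rw [h1, f2 u h3.le]
  have hder : ∀ u, R1 < u → deriv φ u = deriv Φ u * (τ + β (φ u)) := by
    intro u hu
    have h0 := f6 u hu.le
    have h1 : HasDerivAt φ (deriv φ u) u := ((hsm u hu).differentiableAt (by norm_num)).hasDerivAt
    have h2 : HasDerivAt (fun u => T (φ u)) (1 / (τ + β (φ u)) * deriv φ u) u := (hTd _ h0.le).comp u h1
    have h3 : HasDerivAt (fun u => Φ u + L) (deriv Φ u) u :=
      (((f3 u hu.le).differentiableAt (by norm_num)).hasDerivAt).add_const L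
    have h4 : (fun u => T (φ u)) =ᶠ[𝓝 u] fun u => Φ u + L := by
      filter_upwards [lt_mem_nhds hu] with v hv
      exact f2 v hv.le
    have h5 := (h2.congr_of_eventuallyEq h4.symm).unique h3
    rw [← h5]
    have := (hpos _ h0.le).2
    field_simp
  have hder2 : ∀ u, R1 < u → deriv (deriv φ) u
      = deriv (deriv Φ) u * (τ + β (φ u)) + deriv Φ u * (deriv β (φ u) * deriv φ u) := by
    intro u hu
    have h0 := f6 u hu.le
    have h1 : HasDerivAt φ (deriv φ u) u := ((hsm u hu).differentiableAt (by norm_num)).hasDerivAt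
    have h2 : HasDerivAt β (deriv β (φ u)) (φ u) :=
      ((hβc _ h0.le).differentiableAt (by norm_num)).hasDerivAt
    have h3 : HasDerivAt (fun u => deriv Φ u * (τ + β (φ u)))
        (deriv (deriv Φ) u * (τ + β (φ u)) + deriv Φ u * (deriv β (φ u) * deriv φ u)) u :=
      ((f4 u hu.le).hasDerivAt).mul ((h2.comp u h1).const_add τ)
    have h4 : deriv φ =ᶠ[𝓝 u] fun u => deriv Φ u * (τ + β (φ u)) := by
      filter_upwards [lt_mem_nhds hu] with v hv
      exact hder v hv
    exact (h3.congr_of_eventuallyEq h4).deriv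
  -- asymptotics
  have hφt : Tendsto φ atTop atTop := by
    apply tendsto_atTop_mono' atTop _ (tendsto_atTop_add_const_right atTop (-1 : ℝ) tendsto_id)
    filter_upwards [eventually_ge_atTop R1] with u hu
    simp only [id]
    linarith [(f1 u hu).1]
  have hratio : Tendsto (fun u => φ u / u) atTop (𝓝 1) := by
    have h1 : Tendsto (fun u => φ u / u - 1) atTop (𝓝 0) := by
      apply squeeze_zero_norm' (a := fun u : ℝ => 1 / u)
      · filter_upwards [eventually_ge_atTop R1, eventually_gt_atTop (0 : ℝ)] with u hu hu0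
        have e : φ u / u - 1 = (φ u - u) / u := by field_simp
        rw [e, norm_div, Real.norm_of_nonneg hu0.le, Real.norm_eq_abs]
        apply div_le_div_of_nonneg_right _ hu0.le
        rw [abs_le]
        constructor <;> linarith [(f1 u hu).1, (f1 u hu).2]
      · exact tendsto_const_nhds.div_atTop tendsto_id
    have h2 := h1.add_const 1
    rw [zero_add] at h2
    exact h2.congr (fun u => by ring)
  have hratio' : Tendsto (fun u => u / φ u) atTop (𝓝 1) := by
    have := hratio.inv₀ one_ne_zero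
    rw [inv_one] at this
    exact this.congr (fun u => by rw [inv_div])
  have hb : Tendsto (fun u => u * β (φ u)) atTop (𝓝 1) := by
    have h1 := (hβ0.comp hφt).mul hratio'
    rw [mul_one] at h1
    refine h1.congr' ?_
    filter_upwards [hφt.eventually_gt_atTop 0] with u hu
    simp only [Function.comp]
    field_simp
  have hb1 : Tendsto (fun u => u ^ 2 * deriv β (φ u)) atTop (𝓝 (-1)) := by
    have h1 := (hβ1.comp hφt).mul (hratio'.pow 2)
    rw [one_pow, mul_one] at h1
    refine h1.congr' ?_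
    filter_upwards [hφt.eventually_gt_atTop 0] with u hu
    simp only [Function.comp]
    field_simp
  have hβφ : Tendsto (fun u => β (φ u)) atTop (𝓝 0) := hβ.comp hφt
  have hinv : Tendsto (fun u : ℝ => 1 / u) atTop (𝓝 0) := tendsto_const_nhds.div_atTop tendsto_id
  have hΦ' : Tendsto (deriv Φ) atTop (𝓝 τ) := by
    have h1 : Tendsto (fun u => (u * (deriv Φ u - (τ - 1 / u))) / u + (τ - 1 / u)) atTop (𝓝 (0 + (τ - 0))) :=
      (hΦ1.div_atTop tendsto_id).add (hinv.const_sub τ)
    rw [zero_add, sub_zero] at h1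
    refine h1.congr' ?_
    filter_upwards [eventually_gt_atTop (0 : ℝ)] with u hu
    field_simp
    ring
  have hl1 : Tendsto (fun u => u * (deriv φ u - 1)) atTop (𝓝 0) := by
    have h1 : Tendsto (fun u => τ * (u * β (φ u)) + τ * (u * (deriv Φ u - (τ - 1 / u)) - 1)
        + (u * (deriv Φ u - (τ - 1 / u)) - 1) * β (φ u)) atTop
        (𝓝 (τ * 1 + τ * (0 - 1) + (0 - 1) * 0)) :=
      ((hb.const_mul τ).add ((hΦ1.sub_const 1).const_mul τ)).add ((hΦ1.sub_const 1).mul hβφ)
    have e0 : τ * 1 + τ * (0 - 1) + (0 - 1) * 0 = 0 := by ring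
    rw [e0] at h1
    refine h1.congr' ?_
    filter_upwards [eventually_gt_atTop R1, eventually_gt_atTop (0 : ℝ)] with u hu hu0
    rw [hder u hu]
    field_simp
    linear_combination (-u) * hττ
  have hφ' : Tendsto (deriv φ) atTop (𝓝 1) := by
    have h1 : Tendsto (fun u => (u * (deriv φ u - 1)) / u + 1) atTop (𝓝 (0 + 1)) :=
      (hl1.div_atTop tendsto_id).add_const 1
    rw [zero_add] at h1
    refine h1.congr' ?_
    filter_upwards [eventually_gt_atTop (0 : ℝ)] with u hu
    field_simp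
    ring
  refine ⟨φ, ⟨?_, ?_, hl1, ?_⟩, ?_⟩
  · filter_upwards [eventually_gt_atTop R1] with u hu
    exact hsm u hu
  · have h1 := hTL.comp hφt
    have h2 : Tendsto (fun u => Real.log (φ u / u)) atTop (𝓝 0) := by
      have := (Real.continuousAt_log one_ne_zero).tendsto.comp hratio
      rwa [Real.log_one] at this
    have h3 := (((hΦ0.sub h1).add_const L).add h2).const_mul τ
    rw [zero_sub, neg_add_cancel, zero_add, mul_zero] at h3
    refine h3.congr' ?_
    filter_upwards [eventually_gt_atTop R1, eventually_gt_atTop (0 : ℝ), hφt.eventually_gt_atTop 0]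
      with u hu hu0 hφ0
    simp only [Function.comp]
    rw [Real.log_div hφ0.ne' hu0.ne', f2 u hu.le]
    linear_combination (φ u - u) * hττ
  · have h1 : Tendsto (fun u => (u ^ 2 * deriv (deriv Φ) u) * (τ + β (φ u))
        + deriv Φ u * ((u ^ 2 * deriv β (φ u)) * deriv φ u)) atTop
        (𝓝 (1 * (τ + 0) + τ * ((-1) * 1))) :=
      (hΦ2.mul (hβφ.const_add τ)).add (hΦ'.mul (hb1.mul hφ'))
    have e0 : 1 * (τ + 0) + τ * ((-1) * 1) = 0 := by ring
    rw [e0] at h1
    refine h1.congr' ?_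
    filter_upwards [eventually_gt_atTop R1] with u hu
    rw [hder2 u hu]
    ring
  · have hGφ : ∀ᶠ u in atTop, T (G (φ u)) = T (φ u) + 1 := hφt.eventually hG
    have hGφ2 : ∀ᶠ u in atTop, R0 ≤ G (φ u) := (hGt.comp hφt).eventually_ge_atTop R0
    filter_upwards [hΦg, hGφ, hGφ2, eventually_ge_atTop (R1 + 2)] with u h1 h2 h3 hu
    have hg : R1 ≤ u + τ + 1 / (u - τ) := by
      have h5 := f5 (u - 2) (by linarith)
      have h6 := (hR0 R0 le_rfl).2.2
      have : 0 < 1 / (u - τ) := one_div_pos.mpr (by linarith [hτle.1])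
      linarith [hτle.2]
    apply hinj _ _ (f6 _ hg).le h3
    rw [f2 _ hg, h1, h2, f2 u (by linarith)]
    ring

end Pool.Agent.Helper41.Germ
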