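import Pool.Agent.Helper19.Germ.Store

/-! Separation of the sparse scales (S2). -/

open Filter Topology Set

namespace Pool.Agent.Germ

def alT (κ : ℕ → ℕ) (_ : ℕ) (m : ℕ) (_ : ℝ) : ℝ := 2 ^ κ m
def LT (κ : ℕ → ℕ) (s : ℕ) (m : ℕ) (_ : ℝ) : ℝ := 2 ^ κ m * (2 ^ (s + 1) - 1)

theorem amb_bounds (κ : ℕ → ℕ) (s m : ℕ) (p y : ℝ)
    (hy : y ∈ Amb (alT κ) (LT κ) (fun s => 1 / 2 ^ (s + 2)) s m p) :
    (2 : ℝ) ^ κ m ≤ 2 * y ∧ y ≤ 2 ^ (κ m + s + 3) := by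
  obtain ⟨h1, h2⟩ := hy
  simp only [alT, LT] at h1 h2
  have hk : (0 : ℝ) < 2 ^ κ m := by positivity
  have hs : (0 : ℝ) < 2 ^ s := by positivity
  have e1 : (1 : ℝ) / 2 ^ (s + 2) * (2 ^ κ m * (2 ^ (s + 1) - 1)) ≤ 2 ^ κ m / 2 := by
    have : (2 : ℝ) ^ (s + 2) = 2 * 2 ^ (s + 1) := by ring
    rw [this, div_mul_eq_mul_div, one_mul, div_le_div_iff₀ (by positivity) (by norm_num)]
    have h3 : (0 : ℝ) < 2 ^ (s + 1) := by positivity
    nlinarith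
  have e2 : (2 : ℝ) ^ (κ m + s + 3) = 2 ^ κ m * 2 ^ s * 8 := by ring
  have e3 : (2 : ℝ) ^ (s + 1) = 2 * 2 ^ s := by ring
  refine ⟨by linarith, ?_⟩
  rw [e2]
  rw [e3] at h2
  nlinarith

theorem three_facts (s : ℕ) : s + 1 ≤ 3 ^ s := by
  induction s with
  | zero => simp
  | succ n ih => rw [pow_succ]; omega

theorem three_lt {s t : ℕ} (h : s < t) : 3 * 3 ^ s ≤ 3 ^ t := by
  rw [← pow_succ']
  exact Nat.pow_le_pow_right (by norm_num) h

/-- exponents of two scales meeting -/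
theorem expo {a b : ℕ} {x : ℝ} (h1 : (2 : ℝ) ^ a ≤ 2 * x) (h2 : x ≤ 2 ^ b) : a ≤ b + 1 := by
  have h : (2 : ℝ) ^ a ≤ 2 ^ (b + 1) := by
    rw [pow_succ]
    linarith
  exact (pow_le_pow_iff_right₀ (by norm_num)).1 h

theorem same_of (κ : ℕ → ℕ) (K0 : ℕ → ℕ)
    (hgap : ∀ s m m' : ℕ, K0 s ≤ m → m < m' → κ m + 100 * 3 ^ s ≤ κ m')
    (hgap' : ∀ s m m' : ℕ, K0 s ≤ m → m' < m → κ m' + 100 * 3 ^ s ≤ κ m) (c : ℕ) (hc : 10 ≤ c)
    (hc' : c ≤ 20)
    (s s' m m' : ℕ) (p p' x : ℝ) (h1 : K0 s ≤ m) (h2 : K0 s' ≤ m')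
    (hx : x / (2 : ℝ) ^ (c * 3 ^ s) ∈ Amb (alT κ) (LT κ) (fun s => 1 / 2 ^ (s + 2)) s m p)
    (hx' : x / (2 : ℝ) ^ (c * 3 ^ s') ∈ Amb (alT κ) (LT κ) (fun s => 1 / 2 ^ (s + 2)) s' m' p') :
    s = s' ∧ m = m' := by
  obtain ⟨a1, a2⟩ := amb_bounds κ s m p _ hx
  obtain ⟨b1, b2⟩ := amb_bounds κ s' m' p' _ hx'
  have hp : (0 : ℝ) < 2 ^ (c * 3 ^ s) := by positivity
  have hp' : (0 : ℝ) < 2 ^ (c * 3 ^ s') := by positivity
  rw [div_le_iff₀ hp, ← pow_add] at a2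
  rw [div_le_iff₀ hp', ← pow_add] at b2
  have a1' : (2 : ℝ) ^ (κ m + c * 3 ^ s) ≤ 2 * x := by
    rw [mul_div_assoc', le_div_iff₀ hp, ← pow_add] at a1
    exact a1
  have b1' : (2 : ℝ) ^ (κ m' + c * 3 ^ s') ≤ 2 * x := by
    rw [mul_div_assoc', le_div_iff₀ hp', ← pow_add] at b1
    exact b1
  have e1 := expo a1' b2
  have e2 := expo b1' a2
  have f1 := three_facts s
  have f2 := three_facts s'
  rcases lt_trichotomy m m' with hm | hm | hm
  · exfalso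
    have g1 := hgap s m m' h1 hm
    have g2 := hgap' s' m' m h2 hm
    nlinarith [Nat.zero_le (3 ^ s), Nat.zero_le (3 ^ s')]
  · subst hm
    refine ⟨?_, rfl⟩
    rcases lt_trichotomy s s' with hs | hs | hs
    · exfalso
      have := three_lt hs
      nlinarith
    · exact hs
    · exfalso
      have := three_lt hs
      nlinarith
  · exfalso
    have g1 := hgap' s m m' h1 hm
    have g2 := hgap s' m' m h2 hm
    nlinarith [Nat.zero_le (3 ^ s), Nat.zero_le (3 ^ s')]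

theorem sep_trans (κ : ℕ → ℕ) (hκ : StrictMono κ)
    (hg : Tendsto (fun m => κ (m + 1) - κ m) atTop atTop) : ∃ K0 : ℕ → ℕ,
    (∀ s s' m m' p p' x, K0 s ≤ m → K0 s' ≤ m' →
      x / (2 : ℝ) ^ (10 * 3 ^ s) ∈ Amb (alT κ) (LT κ) (fun s => 1 / 2 ^ (s + 2)) s m p →
      x / (2 : ℝ) ^ (10 * 3 ^ s') ∈ Amb (alT κ) (LT κ) (fun s => 1 / 2 ^ (s + 2)) s' m' p' →
      s = s' ∧ m = m') ∧
    (∀ s s' m m' p p' x, K0 s ≤ m → K0 s' ≤ m' →
      x / (2 : ℝ) ^ (20 * 3 ^ s) ∈ Amb (alT κ) (LT κ) (fun s => 1 / 2 ^ (s + 2)) s m p →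
      x / (2 : ℝ) ^ (20 * 3 ^ s') ∈ Amb (alT κ) (LT κ) (fun s => 1 / 2 ^ (s + 2)) s' m' p' →
      s = s' ∧ m = m') ∧
    (∀ s : ℕ, ∀ᶠ u in atTop, ∀ (s₁ s₂ m m' : ℕ) (p p' : ℝ), K0 s₁ ≤ m → K0 s₂ ≤ m' →
      (2 : ℝ) ^ (10 * 3 ^ s) * u / 2 ^ (10 * 3 ^ s₁) ∈
        Amb (alT κ) (LT κ) (fun s => 1 / 2 ^ (s + 2)) s₁ m p →
      (2 : ℝ) ^ (20 * 3 ^ s) * u / 2 ^ (20 * 3 ^ s₂) ∈
        Amb (alT κ) (LT κ) (fun s => 1 / 2 ^ (s + 2)) s₂ m' p' →
      s₁ = s ∧ s₂ = s) := by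
  have hK : ∀ s : ℕ, ∃ K : ℕ, ∀ m, K ≤ m → κ m + 100 * 3 ^ s ≤ κ (m + 1) := by
    intro s
    obtain ⟨K, hK⟩ := eventually_atTop.1 (tendsto_atTop.1 hg (100 * 3 ^ s))
    refine ⟨K, fun m hm => ?_⟩
    have := hK m hm
    have h2 := hκ (Nat.lt_succ_self m)
    simp only [Nat.succ_eq_add_one] at h2
    omega
  choose K hK using hK
  have hgap : ∀ s m m' : ℕ, K s + s + 1 ≤ m → m < m' → κ m + 100 * 3 ^ s ≤ κ m' := by
    intro s m m' h1 h2
    refine (hK s m (by omega)).trans (hκ.monotone h2)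
  have hgap' : ∀ s m m' : ℕ, K s + s + 1 ≤ m → m' < m → κ m' + 100 * 3 ^ s ≤ κ m := by
    intro s m m' h1 h2
    have h3 := hK s (m - 1) (by omega)
    rw [Nat.sub_add_cancel (by omega)] at h3
    have h4 : κ m' ≤ κ (m - 1) := hκ.monotone (by omega)
    omega
  refine ⟨fun s => K s + s + 1, ?_, ?_, ?_⟩
  · intro s s' m m' p p' x h1 h2 hx hx'
    exact same_of κ _ hgap hgap' 10 (by norm_num) (by norm_num) s s' m m' p p' x h1 h2 hx hx'
  · intro s s' m m' p p' x h1 h2 hx hx'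
    exact same_of κ _ hgap hgap' 20 (by norm_num) (by norm_num) s s' m m' p p' x h1 h2 hx hx'
  · intro s
    set N := K s + s + 1 with hN
    filter_upwards [eventually_gt_atTop ((2 : ℝ) ^ (κ N + N + 3 + 20 * 3 ^ N))] with u hu
    intro s₁ s₂ m m' p p' h1 h2 hx hx'
    have hu0 : 0 < u := lt_trans (by positivity) hu
    obtain ⟨a1, a2⟩ := amb_bounds κ s₁ m p _ hx
    obtain ⟨b1, b2⟩ := amb_bounds κ s₂ m' p' _ hx'
    have hp : (0 : ℝ) < 2 ^ (10 * 3 ^ s₁) := by positivity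
    have hp' : (0 : ℝ) < 2 ^ (20 * 3 ^ s₂) := by positivity
    rw [div_le_iff₀ hp, ← pow_add] at a2
    rw [div_le_iff₀ hp', ← pow_add] at b2
    rw [mul_div_assoc', le_div_iff₀ hp, ← pow_add] at a1
    rw [mul_div_assoc', le_div_iff₀ hp', ← pow_add] at b1
    have l1 : u ≤ 2 ^ (κ m + s₁ + 3 + 10 * 3 ^ s₁) := by
      refine le_trans ?_ a2
      nlinarith [one_le_pow₀ (M₀ := ℝ) (a := 2) (by norm_num) (n := 10 * 3 ^ s)]
    have l2 : u ≤ 2 ^ (κ m' + s₂ + 3 + 20 * 3 ^ s₂) := by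
      refine le_trans ?_ b2
      nlinarith [one_le_pow₀ (M₀ := ℝ) (a := 2) (by norm_num) (n := 20 * 3 ^ s)]
    have m1 : κ N + N + 3 + 20 * 3 ^ N < κ m + s₁ + 3 + 10 * 3 ^ s₁ :=
      (pow_lt_pow_iff_right₀ (by norm_num : (1 : ℝ) < 2)).1 (hu.trans_le l1)
    have m2 : κ N + N + 3 + 20 * 3 ^ N < κ m' + s₂ + 3 + 20 * 3 ^ s₂ :=
      (pow_lt_pow_iff_right₀ (by norm_num : (1 : ℝ) < 2)).1 (hu.trans_le l2)
    have n1 : N ≤ m := by
      by_contra hlt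
      push Not at hlt
      have q1 : κ m ≤ κ N := hκ.monotone hlt.le
      have q2 : s₁ ≤ N := by omega
      have q3 : 3 ^ s₁ ≤ 3 ^ N := Nat.pow_le_pow_right (by norm_num) q2
      omega
    have n2 : N ≤ m' := by
      by_contra hlt
      push Not at hlt
      have q1 : κ m' ≤ κ N := hκ.monotone hlt.le
      have q2 : s₂ ≤ N := by omega
      have q3 : 3 ^ s₂ ≤ 3 ^ N := Nat.pow_le_pow_right (by norm_num) q2
      omega
    -- exponent comparisons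
    have c1 : κ m + 10 * 3 ^ s₁ + 20 * 3 ^ s ≤ κ m' + s₂ + 3 + 20 * 3 ^ s₂ + 10 * 3 ^ s + 1 := by
      apply expo (x := 2 ^ (10 * 3 ^ s) * (2 ^ (20 * 3 ^ s) * u))
      · rw [pow_add]
        have := mul_le_mul_of_nonneg_right a1 (by positivity : (0 : ℝ) ≤ 2 ^ (20 * 3 ^ s))
        refine this.trans (le_of_eq (by ring))
      · have := mul_le_mul_of_nonneg_left b2 (by positivity : (0 : ℝ) ≤ 2 ^ (10 * 3 ^ s))
        refine this.trans (le_of_eq (by ring))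
    have c2 : κ m' + 20 * 3 ^ s₂ + 10 * 3 ^ s ≤ κ m + s₁ + 3 + 10 * 3 ^ s₁ + 20 * 3 ^ s + 1 := by
      apply expo (x := 2 ^ (10 * 3 ^ s) * (2 ^ (20 * 3 ^ s) * u))
      · rw [pow_add]
        have := mul_le_mul_of_nonneg_right b1 (by positivity : (0 : ℝ) ≤ 2 ^ (10 * 3 ^ s))
        refine this.trans (le_of_eq (by ring))
      · have := mul_le_mul_of_nonneg_left a2 (by positivity : (0 : ℝ) ≤ 2 ^ (20 * 3 ^ s))
        refine le_trans (le_of_eq (by ring)) (this.trans (le_of_eq (by ring)))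
    have f0 := three_facts s
    have f1 := three_facts s₁
    have f2 := three_facts s₂
    rcases lt_trichotomy m m' with hm | hm | hm
    · exfalso
      have g1 := hgap s₁ m m' h1 hm
      have g2 := hgap' s₂ m' m h2 hm
      have g3 := hgap s m m' n1 hm
      omega
    · subst hm
      rcases lt_trichotomy s₁ s with hs | hs | hs
      · have t1 := three_lt hs
        exfalso
        rcases lt_or_ge s₂ s with h3 | h3
        · have t2 := three_lt h3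
          omega
        · have t2 : 3 ^ s ≤ 3 ^ s₂ := Nat.pow_le_pow_right (by norm_num) h3
          omega
      · subst hs
        refine ⟨rfl, ?_⟩
        rcases lt_trichotomy s₂ s₁ with h3 | h3 | h3
        · have t2 := three_lt h3
          exfalso; omega
        · exact h3
        · have t2 := three_lt h3
          exfalso; omega
      · have t1 := three_lt hs
        exfalso
        rcases lt_or_ge s₂ s₁ with h3 | h3
        · have t2 := three_lt h3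
          omega
        · have t2 : 3 ^ s₁ ≤ 3 ^ s₂ := Nat.pow_le_pow_right (by norm_num) h3
          omega
    · exfalso
      have g1 := hgap' s₁ m m' h1 hm
      have g2 := hgap s₂ m' m h2 hm
      omega

end Pool.Agent.Germ
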