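import Pool.Agent.Helper19.Germ.Defs

/-!
# Fatou coordinate of `x - x^2` with asymptotics of its first two derivatives
-/

open Filter Topology Set

namespace Pool.Agent.Helper41.Germ

/-- right half planes -/
def HP (R : ℝ) : Set ℂ := {z | R < z.re}

lemma isOpen_HP (R : ℝ) : IsOpen (HP R) := isOpen_lt continuous_const Complex.continuous_re

/-- Data of a map `z + 1 + p z` moving to the right. -/
structure PD (τ R C : ℝ) (p : ℂ → ℂ) : Prop where
  tau : |τ| = 1
  R_ge : 4 ≤ R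
  C_nonneg : 0 ≤ C
  diff : DifferentiableOn ℂ p (HP R)
  half : ∀ z ∈ HP R, ‖p z‖ ≤ 1 / 2
  bd : ∀ z ∈ HP R, ‖p z - τ / z‖ ≤ C / ‖z‖ ^ 2

/-- the map -/
noncomputable def FF (p : ℂ → ℂ) (z : ℂ) : ℂ := z + 1 + p z

/-- the error term -/
noncomputable def om (τ : ℝ) (p : ℂ → ℂ) (z : ℂ) : ℂ := p z - τ * Complex.log (1 + (1 + p z) / z)

/-- the correction -/
noncomputable def hF (τ : ℝ) (p : ℂ → ℂ) (z : ℂ) : ℂ := ∑' n : ℕ, om τ p ((FF p)^[n] z)

variable {τ R C : ℝ} {p : ℂ → ℂ}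

lemma HP_norm {z : ℂ} (hz : z ∈ HP R) : R < ‖z‖ := lt_of_lt_of_le hz (Complex.re_le_norm z)

lemma PD.step (h : PD τ R C p) {z : ℂ} (hz : z ∈ HP R) : z.re + 1 / 2 ≤ (FF p z).re := by
  have h1 := (abs_le.mp ((Complex.abs_re_le_norm (p z)).trans (h.half z hz))).1
  simp only [FF, Complex.add_re, Complex.one_re]
  linarith

lemma PD.iter (h : PD τ R C p) {z : ℂ} (hz : z ∈ HP R) (n : ℕ) :
    (FF p)^[n] z ∈ HP R ∧ z.re + n / 2 ≤ ((FF p)^[n] z).re := by
  induction n with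
  | zero => simpa using hz
  | succ n ih =>
    rw [Function.iterate_succ_apply']
    have h1 := h.step ih.1
    have h2 : R < ((FF p)^[n] z).re := ih.1
    refine ⟨?_, ?_⟩
    · show R < _
      linarith
    · push_cast
      linarith [ih.2]

lemma PD.om_le (h : PD τ R C p) {z : ℂ} (hz : z ∈ HP R) : ‖om τ p z‖ ≤ (2 * C + 4) / ‖z‖ ^ 2 := by
  have hR := h.R_ge
  have hC := h.C_nonneg
  have hzn : 4 < ‖z‖ := lt_of_le_of_lt hR (HP_norm hz)
  have hz0 : z ≠ 0 := by
    rintro rfl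
    rw [norm_zero] at hzn
    linarith
  have hτ : ‖(τ : ℂ)‖ = 1 := by rw [Complex.norm_real]; exact h.tau
  have hp := h.half z hz
  have hb := h.bd z hz
  set ζ := (1 + p z) / z with hζ
  have hζn : ‖ζ‖ ≤ (3 / 2) / ‖z‖ := by
    rw [hζ, norm_div]
    apply div_le_div_of_nonneg_right _ (norm_nonneg _)
    calc ‖1 + p z‖ ≤ ‖(1 : ℂ)‖ + ‖p z‖ := norm_add_le _ _
      _ ≤ 3 / 2 := by rw [norm_one]; linarith
  have hζh : ‖ζ‖ ≤ 1 / 2 := by
    refine hζn.trans ?_
    rw [div_le_iff₀ (by linarith)]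
    linarith
  have e1 : om τ p z = (p z - τ / z) - τ * (p z / z) - τ * (Complex.log (1 + ζ) - ζ) := by
    rw [om, hζ]
    field_simp
    ring
  have b2 : ‖(τ : ℂ) * (p z / z)‖ ≤ (1 + C) / ‖z‖ ^ 2 := by
    rw [norm_mul, hτ, one_mul, norm_div]
    have h3 : ‖p z‖ ≤ 1 / ‖z‖ + C / ‖z‖ ^ 2 := by
      calc ‖p z‖ = ‖τ / z + (p z - τ / z)‖ := by ring_nf
        _ ≤ ‖τ / z‖ + ‖p z - τ / z‖ := norm_add_le _ _
        _ ≤ _ := by
          rw [norm_div, hτ]
          linarith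
    have h4 : C / ‖z‖ ^ 2 ≤ C / ‖z‖ := by
      apply div_le_div_of_nonneg_left hC (by linarith)
      nlinarith
    calc ‖p z‖ / ‖z‖ ≤ (1 / ‖z‖ + C / ‖z‖) / ‖z‖ := by
          apply div_le_div_of_nonneg_right _ (norm_nonneg _)
          linarith
      _ = (1 + C) / ‖z‖ ^ 2 := by
          have : ‖z‖ ≠ 0 := by linarith
          field_simp
  have b3 : ‖(τ : ℂ) * (Complex.log (1 + ζ) - ζ)‖ ≤ (9 / 4) / ‖z‖ ^ 2 := by
    rw [norm_mul, hτ, one_mul]
    have h3 := Complex.norm_log_one_add_sub_self_le (z := ζ) (by linarith)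
    have h4 : (1 - ‖ζ‖)⁻¹ ≤ 2 := by
      rw [inv_le_comm₀ (by linarith) (by norm_num)]
      linarith
    have h5 : ‖ζ‖ ^ 2 * (1 - ‖ζ‖)⁻¹ / 2 ≤ ‖ζ‖ ^ 2 := by
      have := mul_le_mul_of_nonneg_left h4 (sq_nonneg ‖ζ‖)
      linarith
    have h6 : ‖ζ‖ ^ 2 ≤ ((3 / 2) / ‖z‖) ^ 2 := pow_le_pow_left₀ (norm_nonneg _) hζn 2
    calc _ ≤ ‖ζ‖ ^ 2 := h3.trans h5
      _ ≤ ((3 / 2) / ‖z‖) ^ 2 := h6
      _ = _ := by rw [div_pow]; norm_num
  rw [e1]
  calc ‖(p z - τ / z) - τ * (p z / z) - τ * (Complex.log (1 + ζ) - ζ)‖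
      ≤ ‖(p z - τ / z) - τ * (p z / z)‖ + ‖τ * (Complex.log (1 + ζ) - ζ)‖ := norm_sub_le _ _
    _ ≤ (‖p z - τ / z‖ + ‖τ * (p z / z)‖) + ‖τ * (Complex.log (1 + ζ) - ζ)‖ := by
        gcongr
        exact norm_sub_le _ _
    _ ≤ (C / ‖z‖ ^ 2 + (1 + C) / ‖z‖ ^ 2) + (9 / 4) / ‖z‖ ^ 2 := by gcongr
    _ = (2 * C + 13 / 4) / ‖z‖ ^ 2 := by ring
    _ ≤ _ := by
        apply div_le_div_of_nonneg_right _ (by positivity)
        linarith

/-- the majorant -/
noncomputable def maj (K x : ℝ) (n : ℕ) : ℝ := K * (4 * (1 / (x + n / 2) - 1 / (x + (n + 1) / 2)))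

lemma maj_ge {K x : ℝ} (hK : 0 ≤ K) (hx : 1 ≤ x) (n : ℕ) : K / (x + n / 2) ^ 2 ≤ maj K x n := by
  have hn : (0 : ℝ) ≤ n := Nat.cast_nonneg n
  have ha : 0 < x + (n : ℝ) / 2 := by positivity
  rw [maj, div_eq_mul_one_div]
  apply mul_le_mul_of_nonneg_left _ hK
  have hb : 0 < x + ((n : ℝ) + 1) / 2 := by positivity
  have e : 4 * (1 / (x + (n : ℝ) / 2) - 1 / (x + ((n : ℝ) + 1) / 2))
      = 2 / ((x + (n : ℝ) / 2) * (x + ((n : ℝ) + 1) / 2)) := by
    field_simp
    ring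
  rw [e, div_le_div_iff₀ (by positivity) (by positivity)]
  nlinarith

lemma maj_nonneg {K x : ℝ} (hK : 0 ≤ K) (hx : 1 ≤ x) (n : ℕ) : 0 ≤ maj K x n :=
  le_trans (by positivity) (maj_ge hK hx n)

lemma maj_hasSum {K x : ℝ} (hK : 0 ≤ K) (hx : 1 ≤ x) : HasSum (maj K x) (4 * K / x) := by
  rw [hasSum_iff_tendsto_nat_of_nonneg (maj_nonneg hK hx)]
  have e : ∀ N : ℕ, ∑ n ∈ Finset.range N, maj K x n = 4 * K * (1 / x - 1 / (x + N / 2)) := by
    intro N
    have h1 := Finset.sum_range_sub' (fun n : ℕ => 1 / (x + (n : ℝ) / 2)) N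
    have h2 : ∀ n : ℕ, maj K x n = 4 * K * (1 / (x + (n : ℝ) / 2) - 1 / (x + ((n + 1 : ℕ) : ℝ) / 2)) := by
      intro n
      rw [maj]
      push_cast
      ring
    simp_rw [h2]
    rw [← Finset.mul_sum, h1]
    simp
  simp_rw [e]
  have h1 : Tendsto (fun N : ℕ => x + (N : ℝ) / 2) atTop atTop :=
    tendsto_atTop_add_const_left _ _ (tendsto_natCast_atTop_atTop.atTop_div_const (by norm_num))
  have h2 : Tendsto (fun N : ℕ => 1 / (x + (N : ℝ) / 2)) atTop (𝓝 0) := by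
    simp_rw [one_div]
    exact tendsto_inv_atTop_zero.comp h1
  have h3 := (h2.const_sub (1 / x)).const_mul (4 * K)
  rw [sub_zero] at h3
  refine h3.congr (fun N => rfl) |>.trans ?_
  rw [mul_one_div]

lemma PD.term_le (h : PD τ R C p) {z : ℂ} (hz : z ∈ HP R) {x : ℝ} (hx : 1 ≤ x) (hxz : x ≤ z.re) (n : ℕ) :
    ‖om τ p ((FF p)^[n] z)‖ ≤ maj (2 * C + 4) x n := by
  have hC := h.C_nonneg
  obtain ⟨h1, h2⟩ := h.iter hz n
  have hn : (0 : ℝ) ≤ n := Nat.cast_nonneg n
  have h3 := h.om_le h1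
  have h4 : x + (n : ℝ) / 2 ≤ ‖(FF p)^[n] z‖ := by
    have := Complex.re_le_norm ((FF p)^[n] z)
    linarith
  refine h3.trans (le_trans ?_ (maj_ge (by positivity) hx n))
  apply div_le_div_of_nonneg_left (by positivity) (by positivity)
  exact pow_le_pow_left₀ (by positivity) h4 2

lemma PD.hF_le (h : PD τ R C p) {z : ℂ} (hz : z ∈ HP R) : ‖hF τ p z‖ ≤ 4 * (2 * C + 4) / z.re := by
  have hC := h.C_nonneg
  have hR := h.R_ge
  have hz' : R < z.re := hz
  exact tsum_of_norm_bounded (maj_hasSum (by positivity) (by linarith))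
    (fun n => h.term_le hz (by linarith) le_rfl n)

lemma PD.summable (h : PD τ R C p) {z : ℂ} (hz : z ∈ HP R) :
    Summable (fun n : ℕ => om τ p ((FF p)^[n] z)) := by
  have hC := h.C_nonneg
  have hR := h.R_ge
  have hz' : R < z.re := hz
  exact Summable.of_norm_bounded (maj_hasSum (K := 2 * C + 4) (by positivity) (by linarith)).summable
    (fun n => h.term_le hz (by linarith) le_rfl n)

lemma PD.hF_step (h : PD τ R C p) {z : ℂ} (hz : z ∈ HP R) : hF τ p (FF p z) = hF τ p z - om τ p z := by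
  have h1 := (h.summable hz).tsum_eq_zero_add
  simp only [Function.iterate_zero, id, Function.iterate_succ_apply] at h1
  rw [hF, hF, h1]
  ring

lemma PD.om_diff (h : PD τ R C p) : DifferentiableOn ℂ (om τ p) (HP R) := by
  intro z hz
  have hR := h.R_ge
  have hzn : 4 < ‖z‖ := lt_of_le_of_lt hR (HP_norm hz)
  have hz0 : z ≠ 0 := by
    rintro rfl
    rw [norm_zero] at hzn
    linarith
  have hp := h.half z hz
  have hpd := (h.diff z hz)
  have hζh : ‖(1 + p z) / z‖ ≤ 1 / 2 := by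
    rw [norm_div, div_le_iff₀ (by linarith)]
    calc ‖1 + p z‖ ≤ ‖(1 : ℂ)‖ + ‖p z‖ := norm_add_le _ _
      _ ≤ _ := by rw [norm_one]; linarith
  have hslit : 1 + (1 + p z) / z ∈ Complex.slitPlane := by
    rw [Complex.mem_slitPlane_iff]
    left
    have := (abs_le.mp ((Complex.abs_re_le_norm ((1 + p z) / z)).trans hζh)).1
    simp only [Complex.add_re, Complex.one_re] at this ⊢
    linarith
  unfold om
  exact hpd.sub ((differentiableWithinAt_const _).mul
    (((differentiableWithinAt_const _).add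
      (((differentiableWithinAt_const _).add hpd).div differentiableWithinAt_id hz0)).clog hslit))

lemma PD.iter_diff (h : PD τ R C p) (n : ℕ) : DifferentiableOn ℂ ((FF p)^[n]) (HP R) := by
  have h0 : DifferentiableOn ℂ (FF p) (HP R) :=
    (differentiableOn_id.add (differentiableOn_const 1)).add h.diff
  have hm : MapsTo (FF p) (HP R) (HP R) := by
    intro z hz
    have h1 := h.step hz
    have h2 : R < z.re := hz
    show R < _
    linarith
  exact h0.iterate hm n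

lemma PD.hF_diff (h : PD τ R C p) : DifferentiableOn ℂ (hF τ p) (HP R) := by
  have hC := h.C_nonneg
  have hR := h.R_ge
  apply Complex.differentiableOn_tsum_of_summable_norm
    (maj_hasSum (K := 2 * C + 4) (x := R) (by positivity) (by linarith)).summable _ (isOpen_HP R)
  · intro n z hz
    exact h.term_le hz (by linarith) (le_of_lt hz) n
  · intro n
    apply h.om_diff.comp (h.iter_diff n)
    intro z hz
    exact (h.iter hz n).1

lemma PD.deriv_bounds (h : PD τ R C p) {x : ℝ} (hx : 2 * R < x) :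
    ‖deriv (hF τ p) x‖ ≤ 16 * (2 * C + 4) / x ^ 2 ∧
      ‖deriv (deriv (hF τ p)) x‖ ≤ 64 * (2 * C + 4) / x ^ 3 := by
  have hC := h.C_nonneg
  have hR := h.R_ge
  have hx0 : 0 < x := by linarith
  have hre : ∀ z ∈ Metric.closedBall (x : ℂ) (x / 2), x / 2 ≤ z.re := by
    intro z hz
    rw [Metric.mem_closedBall, Complex.dist_eq] at hz
    have h1 := (abs_le.mp ((Complex.abs_re_le_norm (z - x)).trans hz)).1
    rw [Complex.sub_re, Complex.ofReal_re] at h1
    linarith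
  have hsub : Metric.closedBall (x : ℂ) (x / 2) ⊆ HP R := by
    intro z hz
    show R < z.re
    linarith [hre z hz]
  have hd : DiffContOnCl ℂ (hF τ p) (Metric.ball (x : ℂ) (x / 2)) := h.hF_diff.diffContOnCl_ball hsub
  have hb : ∀ z ∈ Metric.sphere (x : ℂ) (x / 2), ‖hF τ p z‖ ≤ 8 * (2 * C + 4) / x := by
    intro z hz
    have hz' := Metric.sphere_subset_closedBall hz
    refine (h.hF_le (hsub hz')).trans ?_
    have h1 := hre z hz'
    rw [div_le_div_iff₀ (by linarith) hx0]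
    nlinarith
  constructor
  · have h1 := Complex.norm_deriv_le_of_forall_mem_sphere_norm_le (by positivity : 0 < x / 2) hd hb
    refine h1.trans (le_of_eq ?_)
    field_simp
    ring
  · have h1 := Complex.norm_iteratedDeriv_le_of_forall_mem_sphere_norm_le 2 (by positivity : 0 < x / 2) hd hb
    rw [iteratedDeriv_succ, iteratedDeriv_one] at h1
    refine h1.trans (le_of_eq ?_)
    norm_num
    field_simp
    ring

/-- real Fatou coordinate of the map moving to the right -/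
noncomputable def Ps (τ : ℝ) (p : ℂ → ℂ) (x : ℝ) : ℝ := x - τ * Real.log x + (hF τ p x).re

lemma PD.Ps_step (h : PD τ R C p) {a b : ℝ} (ha : R < a) (hb : R < b) (hab : FF p a = b) :
    Ps τ p b = Ps τ p a + 1 := by
  have hR := h.R_ge
  have ha0 : (a : ℂ) ≠ 0 := by
    norm_cast
    linarith
  have h1 := h.hF_step (z := (a : ℂ)) (by simpa [HP] using ha)
  rw [hab] at h1
  have hp : p a = ((b - a - 1 : ℝ) : ℂ) := by
    rw [FF] at hab
    push_cast
    rw [← hab]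
    ring
  have h2 : om τ p a = ((b - a - 1 - τ * (Real.log b - Real.log a) : ℝ) : ℂ) := by
    rw [om, hp]
    have h3 : 1 + (1 + ((b - a - 1 : ℝ) : ℂ)) / (a : ℂ) = ((b / a : ℝ) : ℂ) := by
      push_cast
      field_simp
      ring
    rw [h3, ← Complex.ofReal_log (div_nonneg (by linarith) (by linarith) : 0 ≤ b / a), Real.log_div (by linarith) (by linarith)]
    push_cast
    ring
  rw [Ps, Ps, h1, h2, Complex.sub_re, Complex.ofReal_re]
  ring

end Pool.Agent.Helper41.Germ
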