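import Pool.Agent.Helper41.Germ.Fatou

/-!
# Fatou coordinate of `x - x^2`: the two half-germs
-/

open Filter Topology Set

namespace Pool.Agent.Helper41.Germ

lemma PD_pos : PD 1 4 2 (fun z => 1 / (z - 1)) := by
  have key : ∀ z ∈ HP 4, 4 < ‖z‖ ∧ ‖z‖ / 2 ≤ ‖z - 1‖ ∧ z ≠ 0 ∧ z - 1 ≠ 0 := by
    intro z hz
    have h1 : 4 < ‖z‖ := HP_norm hz
    have h2 : ‖z‖ - 1 ≤ ‖z - 1‖ := by
      have := norm_sub_norm_le z 1
      rwa [norm_one] at this
    refine ⟨h1, by linarith, ?_, ?_⟩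
    · rintro rfl
      rw [norm_zero] at h1
      linarith
    · intro h3
      rw [h3, norm_zero] at h2
      linarith
  refine ⟨abs_one, le_rfl, by norm_num, ?_, ?_, ?_⟩
  · intro z hz
    obtain ⟨h1, h2, h3, h4⟩ := key z hz
    exact ((differentiableWithinAt_const _).div
      (differentiableWithinAt_id.sub (differentiableWithinAt_const _)) h4)
  · intro z hz
    obtain ⟨h1, h2, h3, h4⟩ := key z hz
    rw [norm_div, norm_one, div_le_div_iff₀ (norm_pos_iff.mpr h4) (by norm_num)]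
    linarith
  · intro z hz
    obtain ⟨h1, h2, h3, h4⟩ := key z hz
    have e : (1 : ℂ) / (z - 1) - ((1 : ℝ) : ℂ) / z = 1 / (z * (z - 1)) := by
      rw [Complex.ofReal_one]
      field_simp
      ring
    rw [e, norm_div, norm_one, norm_mul, div_le_div_iff₀
      (mul_pos (norm_pos_iff.mpr h3) (norm_pos_iff.mpr h4)) (by positivity)]
    nlinarith [norm_nonneg z]

/-- the square root `√(1 + 4/z)` -/
noncomputable def sq4 (z : ℂ) : ℂ := Complex.exp (Complex.log (1 + 4 / z) / 2)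

lemma sq4_sq {z : ℂ} (h : 1 + 4 / z ≠ 0) : sq4 z ^ 2 = 1 + 4 / z := by
  rw [sq4, ← Complex.exp_nat_mul]
  have : ((2 : ℕ) : ℂ) * (Complex.log (1 + 4 / z) / 2) = Complex.log (1 + 4 / z) := by
    push_cast
    ring
  rw [this, Complex.exp_log h]

lemma sq4_re (z : ℂ) : 0 ≤ (sq4 z).re := by
  rw [sq4, Complex.exp_re]
  apply mul_nonneg (Real.exp_pos _).le
  have e : (Complex.log (1 + 4 / z) / 2).im = Complex.arg (1 + 4 / z) / 2 := by
    rw [← Complex.log_im]
    have : Complex.log (1 + 4 / z) / 2 = Complex.log (1 + 4 / z) / ((2 : ℝ) : ℂ) := by norm_num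
    rw [this, Complex.div_ofReal_im]
  rw [e]
  apply Real.cos_nonneg_of_mem_Icc
  have h1 := Complex.neg_pi_lt_arg (1 + 4 / z)
  have h2 := Complex.arg_le_pi (1 + 4 / z)
  constructor <;> linarith

lemma PD_neg : PD (-1) 16 17 (fun z => (1 - sq4 z) / (1 + sq4 z)) := by
  have key : ∀ z ∈ HP 16, 16 < ‖z‖ ∧ z ≠ 0 ∧ ‖(4 : ℂ) / z‖ ≤ 1 / 4 ∧ 1 + 4 / z ∈ Complex.slitPlane ∧
      1 ≤ ‖1 + sq4 z‖ ∧ (sq4 z - 1) * (1 + sq4 z) = 4 / z ∧ ‖sq4 z - 1‖ ≤ 4 / ‖z‖ := by
    intro z hz
    have h1 : 16 < ‖z‖ := HP_norm hz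
    have h2 : z ≠ 0 := by
      rintro rfl
      rw [norm_zero] at h1
      linarith
    have h3 : ‖(4 : ℂ) / z‖ = 4 / ‖z‖ := by
      rw [norm_div]
      norm_num
    have h3' : ‖(4 : ℂ) / z‖ ≤ 1 / 4 := by
      rw [h3, div_le_div_iff₀ (by linarith) (by norm_num)]
      linarith
    have h4 : 1 + 4 / z ∈ Complex.slitPlane := by
      rw [Complex.mem_slitPlane_iff]
      left
      have := (abs_le.mp ((Complex.abs_re_le_norm (4 / z)).trans h3')).1
      simp only [Complex.add_re, Complex.one_re]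
      linarith
    have h5 : 1 ≤ ‖1 + sq4 z‖ := by
      have := Complex.re_le_norm (1 + sq4 z)
      simp only [Complex.add_re, Complex.one_re] at this
      linarith [sq4_re z]
    have h6 : (sq4 z - 1) * (1 + sq4 z) = 4 / z := by
      have := sq4_sq (Complex.slitPlane_ne_zero h4)
      calc (sq4 z - 1) * (1 + sq4 z) = sq4 z ^ 2 - 1 := by ring
        _ = 4 / z := by rw [this]; ring
    refine ⟨h1, h2, h3', h4, h5, h6, ?_⟩
    have h7 : ‖sq4 z - 1‖ * ‖1 + sq4 z‖ = 4 / ‖z‖ := by rw [← norm_mul, h6, h3]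
    nlinarith [norm_nonneg (sq4 z - 1)]
  refine ⟨by norm_num, by norm_num, by norm_num, ?_, ?_, ?_⟩
  · intro z hz
    obtain ⟨h1, h2, h3, h4, h5, h6, h7⟩ := key z hz
    have hs : DifferentiableWithinAt ℂ sq4 (HP 16) z := by
      unfold sq4
      exact ((((differentiableWithinAt_const _).add
        ((differentiableWithinAt_const _).div differentiableWithinAt_id h2)).clog h4).div_const _).cexp
    have h8 : 1 + sq4 z ≠ 0 := by
      intro h
      rw [h, norm_zero] at h5
      linarith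
    exact ((differentiableWithinAt_const _).sub hs).div ((differentiableWithinAt_const _).add hs) h8
  · intro z hz
    obtain ⟨h1, h2, h3, h4, h5, h6, h7⟩ := key z hz
    have h8 : ‖1 - sq4 z‖ ≤ 1 / 4 := by
      rw [norm_sub_rev]
      refine h7.trans ?_
      rw [div_le_div_iff₀ (by linarith) (by norm_num)]
      linarith
    rw [norm_div, div_le_iff₀ (by linarith)]
    linarith
  · intro z hz
    obtain ⟨h1, h2, h3, h4, h5, h6, h7⟩ := key z hz
    have h8 : 1 + sq4 z ≠ 0 := by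
      intro h
      rw [h, norm_zero] at h5
      linarith
    have e : (1 - sq4 z) / (1 + sq4 z) - ((-1 : ℝ) : ℂ) / z
        = (sq4 z - 1) * (sq4 z + 3) / (z * (1 + sq4 z) ^ 2) := by
      have h9 : z * ((sq4 z - 1) * (1 + sq4 z)) = 4 := by
        rw [h6]
        field_simp
      push_cast
      field_simp
      linear_combination (-1 : ℂ) * h9
    have h10 : ‖sq4 z + 3‖ ≤ 17 / 4 := by
      calc ‖sq4 z + 3‖ = ‖(sq4 z - 1) + 4‖ := by ring_nf
        _ ≤ ‖sq4 z - 1‖ + ‖(4 : ℂ)‖ := norm_add_le _ _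
        _ ≤ 1 / 4 + 4 := by
          have : 4 / ‖z‖ ≤ 1 / 4 := by
            rw [div_le_div_iff₀ (by linarith) (by norm_num)]
            linarith
          have h11 : ‖(4 : ℂ)‖ = 4 := by norm_num
          rw [h11]
          linarith
        _ = 17 / 4 := by norm_num
    rw [e, norm_div, norm_mul, norm_mul, norm_pow]
    have hzp : 0 < ‖z‖ := by linarith
    have h12 : ‖sq4 z - 1‖ * ‖sq4 z + 3‖ ≤ 17 / ‖z‖ := by
      calc ‖sq4 z - 1‖ * ‖sq4 z + 3‖ ≤ (4 / ‖z‖) * (17 / 4) :=
            mul_le_mul h7 h10 (norm_nonneg _) (by positivity)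
        _ = 17 / ‖z‖ := by ring
    have h13 : ‖z‖ ≤ ‖z‖ * ‖1 + sq4 z‖ ^ 2 := by
      have : 1 ≤ ‖1 + sq4 z‖ ^ 2 := one_le_pow₀ h5
      nlinarith
    calc ‖sq4 z - 1‖ * ‖sq4 z + 3‖ / (‖z‖ * ‖1 + sq4 z‖ ^ 2)
        ≤ (17 / ‖z‖) / ‖z‖ := div_le_div₀ (by positivity) h12 hzp h13
      _ = 17 / ‖z‖ ^ 2 := by
          field_simp

/-- The Fatou coordinate of one half of `x - x^2`. -/
theorem exists_fatou (τ : ℝ) (hτ : τ = 1 ∨ τ = -1) : ∃ Φ : ℝ → ℝ,
    (∀ᶠ u in atTop, ContDiffAt ℝ 2 Φ u) ∧ (∀ᶠ u in atTop, DifferentiableAt ℝ (deriv Φ) u) ∧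
    Tendsto (fun u => Φ u - (τ * u - Real.log u)) atTop (𝓝 0) ∧
    Tendsto (fun u => u * (deriv Φ u - (τ - 1 / u))) atTop (𝓝 0) ∧
    Tendsto (fun u => u ^ 2 * deriv (deriv Φ) u) atTop (𝓝 1) ∧
    ∀ᶠ u in atTop, Φ (u + τ + 1 / (u - τ)) = Φ u + 1 := by
  have hττ : τ * τ = 1 := by rcases hτ with h | h <;> rw [h] <;> norm_num
  obtain ⟨R, C, p, h, hfun⟩ : ∃ (R C : ℝ) (p : ℂ → ℂ), PD τ R C p ∧
      ∀ᶠ u : ℝ in atTop, (τ = 1 → FF p u = ((u + τ + 1 / (u - τ) : ℝ) : ℂ)) ∧
        (τ = -1 → FF p ((u + τ + 1 / (u - τ) : ℝ) : ℂ) = u) := by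
    rcases hτ with h | h
    · subst h
      refine ⟨4, 2, _, PD_pos, Eventually.of_forall (fun u => ⟨fun _ => ?_, fun h => ?_⟩)⟩
      · rw [FF]
        push_cast
        ring
      · norm_num at h
    · subst h
      refine ⟨16, 17, _, PD_neg, ?_⟩
      filter_upwards [eventually_gt_atTop (1 : ℝ)] with u hu
      refine ⟨fun h => by norm_num at h, fun _ => ?_⟩
      have hu0 : u ≠ 0 := by linarith
      have hu1 : u + 1 ≠ 0 := by linarith
      have hw : u + -1 + 1 / (u - -1) = u ^ 2 / (u + 1) := by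
        rw [sub_neg_eq_add]
        field_simp
        ring
      have hs : sq4 ((u ^ 2 / (u + 1) : ℝ) : ℂ) = (((u + 2) / u : ℝ) : ℂ) := by
        have e1 : (1 : ℂ) + 4 / ((u ^ 2 / (u + 1) : ℝ) : ℂ) = ((((u + 2) / u) ^ 2 : ℝ) : ℂ) := by
          have : (1 : ℝ) + 4 / (u ^ 2 / (u + 1)) = ((u + 2) / u) ^ 2 := by
            field_simp
            ring
          rw [← this]
          push_cast
          ring
        have hpos : 0 < (u + 2) / u := by positivity
        rw [sq4, e1, ← Complex.ofReal_log (by positivity), Real.log_pow]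
        have e2 : (((2 : ℕ) * Real.log ((u + 2) / u) : ℝ) : ℂ) / 2 = ((Real.log ((u + 2) / u) : ℝ) : ℂ) := by
          push_cast
          ring
        rw [e2, ← Complex.ofReal_exp, Real.exp_log hpos]
      rw [hw, FF, hs]
      have e3 : u ^ 2 / (u + 1) + 1 + (1 - (u + 2) / u) / (1 + (u + 2) / u) = u := by
        have h5 : 1 + (u + 2) / u ≠ 0 := by
          have : 0 < (u + 2) / u := by positivity
          linarith
        field_simp
        ring
      exact_mod_cast congrArg (fun x : ℝ => (x : ℂ)) e3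
  have hR := h.R_ge
  have hC := h.C_nonneg
  -- the derivatives of the correction
  have hHP : ∀ x : ℝ, R < x → (x : ℂ) ∈ HP R := fun x hx => by simpa [HP] using hx
  have hnb : ∀ x : ℝ, R < x → HP R ∈ 𝓝 (x : ℂ) := fun x hx => (isOpen_HP R).mem_nhds (hHP x hx)
  have hda : ∀ x : ℝ, R < x → AnalyticAt ℂ (hF τ p) x := fun x hx =>
    h.hF_diff.analyticAt (hnb x hx)
  set hr : ℝ → ℝ := fun x => (hF τ p x).re with hhr
  have hd1 : ∀ x : ℝ, R < x → HasDerivAt hr (deriv (hF τ p) x).re x := fun x hx =>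
    ((hda x hx).differentiableAt.hasDerivAt).real_of_complex
  have hd2 : ∀ x : ℝ, R < x → HasDerivAt (fun x : ℝ => (deriv (hF τ p) x).re)
      (deriv (deriv (hF τ p)) x).re x := fun x hx =>
    ((hda x hx).deriv.differentiableAt.hasDerivAt).real_of_complex
  set Φ : ℝ → ℝ := fun x => τ * Ps τ p x with hΦ
  have hΦeq : ∀ x, Φ x = τ * x - Real.log x + τ * hr x := by
    intro x
    rw [hΦ]
    simp only [Ps, hhr]
    linear_combination (-Real.log x) * hττ
  have hΦd : ∀ x : ℝ, R < x → HasDerivAt Φ (τ - 1 / x + τ * (deriv (hF τ p) x).re) x := by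
    intro x hx
    have hx0 : x ≠ 0 := by linarith
    have h1 : HasDerivAt (fun x => τ * x - Real.log x + τ * hr x)
        (τ * 1 - x⁻¹ + τ * (deriv (hF τ p) x).re) x :=
      (((hasDerivAt_id x).const_mul τ).sub (Real.hasDerivAt_log hx0)).add ((hd1 x hx).const_mul τ)
    rw [mul_one, ← one_div] at h1
    exact h1.congr_of_eventuallyEq (Eventually.of_forall hΦeq)
  have hΦdd : ∀ x : ℝ, R < x → HasDerivAt (deriv Φ) (1 / x ^ 2 + τ * (deriv (deriv (hF τ p)) x).re) x := by
    intro x hx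
    have hx0 : x ≠ 0 := by linarith
    have h1 : HasDerivAt (fun x : ℝ => τ - 1 / x + τ * (deriv (hF τ p) x).re)
        (1 / x ^ 2 + τ * (deriv (deriv (hF τ p)) x).re) x := by
      have h2 : HasDerivAt (fun x : ℝ => τ - 1 / x) (1 / x ^ 2) x := by
        have h3 := (hasDerivAt_inv hx0).const_sub τ
        simp only [one_div]
        simpa using h3
      exact h2.add ((hd2 x hx).const_mul τ)
    apply h1.congr_of_eventuallyEq
    filter_upwards [lt_mem_nhds hx] with y hy
    exact (hΦd y hy).deriv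
  have hτa : |τ| = 1 := h.tau
  have hτle : τ ≤ 1 ∧ -1 ≤ τ := by
    rcases hτ with h | h <;> rw [h] <;> norm_num
  refine ⟨Φ, ?_, ?_, ?_, ?_, ?_, ?_⟩
  rotate_left
  · filter_upwards [eventually_gt_atTop R] with x hx
    exact (hΦdd x hx).differentiableAt
  rotate_right
  · filter_upwards [eventually_gt_atTop R] with x hx
    have hx0 : x ≠ 0 := by linarith
    have h1 : ContDiffAt ℝ 2 hr x := by
      have h2 : ContDiffAt ℝ 2 (hF τ p) (x : ℂ) := ((hda x hx).contDiffAt).restrict_scalars ℝ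
      have h3 : ContDiffAt ℝ 2 (fun x : ℝ => (x : ℂ)) x := Complex.ofRealCLM.contDiff.contDiffAt
      have h4 : ContDiffAt ℝ 2 (fun x : ℝ => hF τ p (x : ℂ)) x := h2.comp x h3
      exact (Complex.reCLM.contDiff.contDiffAt).comp x h4
    have h5 : ContDiffAt ℝ 2 (fun x => τ * x - Real.log x + τ * hr x) x :=
      ((contDiffAt_const.mul contDiffAt_id).sub (contDiffAt_id.log hx0)).add (contDiffAt_const.mul h1)
    exact h5.congr_of_eventuallyEq (Eventually.of_forall hΦeq)
  · have h1 : ∀ᶠ u : ℝ in atTop, ‖Φ u - (τ * u - Real.log u)‖ ≤ 4 * (2 * C + 4) / u := by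
      filter_upwards [eventually_gt_atTop R] with u hu
      rw [hΦeq, add_sub_cancel_left, Real.norm_eq_abs, abs_mul, hτa, one_mul]
      have h2 := h.hF_le (hHP u hu)
      rw [Complex.ofReal_re] at h2
      exact (Complex.abs_re_le_norm _).trans h2
    exact squeeze_zero_norm' h1 (tendsto_const_nhds.div_atTop tendsto_id)
  · have h1 : ∀ᶠ u : ℝ in atTop, ‖u * (deriv Φ u - (τ - 1 / u))‖ ≤ 16 * (2 * C + 4) / u := by
      filter_upwards [eventually_gt_atTop (2 * R)] with u hu
      have hu' : R < u := by linarith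
      have hu0 : 0 < u := by linarith
      rw [(hΦd u hu').deriv, add_sub_cancel_left, Real.norm_eq_abs, abs_mul, abs_mul, hτa, one_mul,
        abs_of_pos hu0]
      have h2 := (h.deriv_bounds hu).1
      calc u * |(deriv (hF τ p) u).re| ≤ u * (16 * (2 * C + 4) / u ^ 2) :=
            mul_le_mul_of_nonneg_left ((Complex.abs_re_le_norm _).trans h2) hu0.le
        _ = _ := by field_simp
    exact squeeze_zero_norm' h1 (tendsto_const_nhds.div_atTop tendsto_id)
  · have h1 : ∀ᶠ u : ℝ in atTop, ‖u ^ 2 * deriv (deriv Φ) u - 1‖ ≤ 64 * (2 * C + 4) / u := by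
      filter_upwards [eventually_gt_atTop (2 * R)] with u hu
      have hu' : R < u := by linarith
      have hu0 : 0 < u := by linarith
      have e : u ^ 2 * (1 / u ^ 2 + τ * (deriv (deriv (hF τ p)) u).re) - 1
          = u ^ 2 * (τ * (deriv (deriv (hF τ p)) u).re) := by
        field_simp
        ring
      rw [(hΦdd u hu').deriv, e, Real.norm_eq_abs, abs_mul, abs_mul, hτa, one_mul,
        abs_of_pos (by positivity : 0 < u ^ 2)]
      have h2 := (h.deriv_bounds hu).2
      calc u ^ 2 * |(deriv (deriv (hF τ p)) u).re| ≤ u ^ 2 * (64 * (2 * C + 4) / u ^ 3) :=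
            mul_le_mul_of_nonneg_left ((Complex.abs_re_le_norm _).trans h2) (by positivity)
        _ = _ := by field_simp
    have h2 : Tendsto (fun u => u ^ 2 * deriv (deriv Φ) u - 1) atTop (𝓝 0) :=
      squeeze_zero_norm' h1 (tendsto_const_nhds.div_atTop tendsto_id)
    have h3 := h2.add_const 1
    rw [zero_add] at h3
    refine h3.congr (fun u => ?_)
    ring
  · filter_upwards [hfun, eventually_gt_atTop (R + 2)] with u hu huR
    have hg : R < u + τ + 1 / (u - τ) := by
      have : 0 < 1 / (u - τ) := one_div_pos.mpr (by linarith [hτle.1])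
      linarith [hτle.2]
    rcases hτ with h1 | h1
    · have h2 := h.Ps_step (by linarith : R < u) hg (hu.1 h1)
      rw [hΦ]
      simp only
      rw [h2, h1]
      ring
    · have h2 := h.Ps_step hg (by linarith : R < u) (hu.2 h1)
      rw [hΦ]
      simp only
      rw [h2]
      have : τ = -1 := h1
      linear_combination (-1 : ℝ) * this
end Pool.Agent.Helper41.Germ
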